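import Mathlib
import Pool.Agent.R649.LampQ

/-! An extension `G` of a group with bounded retreat depth and connected spheres such that `G` is
one-ended, has unbounded retreat depth and does not have connected spheres. -/

namespace Pool.Agent.Results.MP_506dae_al.BadExtension

open Pool.Agent.R649 Pool.Agent.R649.LampF Pool.Agent.R649.ZSq Pool.Agent.R649.Lamp
  Pool.Agent.R649.Tree

theorem result : ∃ (G Q : Type) (_ : Group G) (_ : Group Q) (S : Set G) (π : G →* Q),
    S.Finite ∧ Subgroup.closure S = ⊤ ∧ Function.Surjective π ∧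
    OneEnded (π '' S) ∧ BoundedRetreatDepth (π '' S) ∧ ConnectedSpheres (π '' S) ∧
    OneEnded S ∧ ¬ BoundedRetreatDepth S ∧ ¬ ConnectedSpheres S := by
  refine ⟨LG F, Q, inferInstance, inferInstance, SF, quo, SF_finite, SF_gen, quo_surj, ?_, ?_, ?_,
    oneEnded, rd_unbounded, no_spheres⟩
  · rw [quo_image]
    exact oneEndedQ
  · rw [quo_image]
    exact boundedQ
  · rw [quo_image]
    exact spheresQ

end Pool.Agent.Results.MP_506dae_al.BadExtension
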